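import Pool.Agent.AD.V.Alg
import Pool.Agent.AD.W.Scale
import Pool.Agent.AD.Cone
import Pool.Agent.H14.V.FourW

/-!
# AD V Main: curves of order two in varieties of dimension at least two, in the projective space

Port of the parts of `H14/V` which depend on the dimension.
-/

set_option autoImplicit false

open Topology Filter MvPolynomial Metric

noncomputable section

namespace Pool.Agent.AD

open Pool.Agent.H17 (PN VanishesAt HolomorphicInto ZariskiClosedIn puncturedDisc)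
open Pool.Agent.H62.FC (Homog)
open Pool.Agent.H17LG.Variety (FunField)
open Pool.Agent.H13.SM (conTan)
open Pool.Agent.H36.BP (EN fs wd OrdTwo)
open Pool.Agent.H14.PP (IsCone)
open Pool.Agent.H13.OT (OrderTwo)
open Pool.Agent.H17EF (projVar zariskiClosure coneE LE prP prP_injective mk_symm mk_mem_projVar)
open Pool.Agent.H62.EF (MN pr)
open Pool.Agent.H22.W (PseudoLength)
open Pool.Agent.H5.BD (BC Equi evp)
open Pool.Agent.H14.V (IsLift boundedDistortion brodyCurves DoublyPeriodic Degenerate mem_BC doublyPeriodic_of finite_of_lifts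
  exists_curve eq_of_equi IsNull isLift_mk average_toLp pr_const nonconstant_of orderTwo_of)

variable {N : ℕ} {P : Ideal (MvPolynomial (Fin (N + 1)) ℂ)}

/-- doubly periodic curves with bounded derivative are algebraically degenerate -/
theorem degenerate_of [P.IsPrime] {n : ℕ} (hn : 2 ≤ n) {z : Fin n → FunField P} (hP : Homog P) (hz : IsTranscendenceBasis ℂ z)
    {F : ℂ → EN N} {f : ℂ → PN N} (h : IsLift F f) (hf : ∀ z, f z ∈ projVar P) {L : ℝ} (hL : ∀ z, fs (F z) (deriv F z) ≤ L)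
    (hper : DoublyPeriodic f) : Degenerate P f := by
  obtain ⟨ω₁, ω₂, hω, h2⟩ := hper
  have h1 : OrdTwo fun z => (LE N).symm (F z) := Pool.Agent.H17EF.ordTwo_symm (Pool.Agent.H17EF.ordTwo_of_fs h.1 h.ne_zero hL)
  have hperiod : ∀ ω, (∀ z, f (z + ω) = f z) → Pool.Agent.H17EF.IsPeriod (fun z => (LE N).symm (F z)) ω := by
    intro ω hω z
    obtain ⟨h3, h3'⟩ := h.2 (z + ω)
    obtain ⟨h4, h4'⟩ := h.2 z
    have h5 := hω z
    rw [h3', h4', Projectivization.mk_eq_mk_iff'] at h5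
    obtain ⟨a, ha⟩ := h5
    refine ⟨a, ?_, ha.symm⟩
    rintro rfl
    rw [zero_smul] at ha
    exact h3 ha.symm
  obtain ⟨Q, d, hQ, hQP, hQF⟩ := exists_form_of_periodic hn hz ((LE N).symm.differentiable.comp h.1)
    (fun z => (h.2 z).1) h1 (fun z Q hQ => ((h.mem_iff hP z).1 (hf z)).2 Q hQ) hω
    (hperiod ω₁ fun z => (h2 z).1) (hperiod ω₂ fun z => (h2 z).2)
  refine ⟨Q, d, hQ, hQP, fun z => ?_⟩
  obtain ⟨h2, h2'⟩ := h.2 z
  rw [h2']
  obtain ⟨a, ha, hrep⟩ := Pool.Agent.H36.BP.rep_mk h2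
  unfold VanishesAt
  rw [hrep, Pool.Agent.H17EF.eval_smul_form hQ]
  have := hQF z
  exact mul_eq_zero_of_right _ this

/-- the union of the Zariski closures of finitely many degenerate curves is a proper closed subset -/
theorem closed_union_closure [P.IsPrime] {n : ℕ} (hn : 1 ≤ n) {z : Fin n → FunField P} (hP : Homog P) (hz : IsTranscendenceBasis ℂ z)
    {T : Set (ℂ → PN N)} (hT : T.Finite) (hTX : ∀ g ∈ T, ∀ z, g z ∈ projVar P) (hTd : ∀ g ∈ T, Degenerate P g) :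
    ZariskiClosedIn (projVar P) (⋃ g ∈ T, zariskiClosure g) ∧ (⋃ g ∈ T, zariskiClosure g) ≠ projVar P := by
  refine ⟨Pool.Agent.H17EF.closed_biUnion hT fun g hg => Pool.Agent.H17EF.closed_zariskiClosure (hTX g hg), fun heq => ?_⟩
  have hX : ∃ i, (X i : MvPolynomial (Fin (N + 1)) ℂ) ∉ P := Pool.Agent.H62.FC.exists_X_notMem hn ⟨z, hz⟩
  obtain ⟨R, n, hR, hRP, hRU⟩ := Pool.Agent.H17EF.exists_prod (P := P) hT (A := fun f => zariskiClosure f) (by
    intro f hf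
    obtain ⟨Q, d, hQ, hQP, hQf⟩ := hTd f hf
    exact ⟨Q, d, hQ, hQP, fun x hx => hx Q d hQ hQf⟩)
  obtain ⟨x, hx, hxR⟩ := Pool.Agent.H17EF.exists_point hP hX hRP hR
  apply hxR
  rw [← heq] at hx
  exact hRU x hx

/-- The theorem on curves with bounded distortion for the cone `coneE P` (all of them are doubly periodic, and finitely many up to affine
changes of the variable), as a hypothesis. -/
def BDTheorem (X : Set (EN N)) (c L : ℝ) : Prop :=
  (∀ F ∈ BC X c L, ∃ ω₁ ω₂ : ℂ, LinearIndependent ℝ ![ω₁, ω₂] ∧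
      ∀ z, pr (F (z + ω₁)) = pr (F z) ∧ pr (F (z + ω₂)) = pr (F z)) ∧
    ∃ T : Finset (ℂ → EN N), (∀ G ∈ T, G ∈ BC X c L) ∧ ∀ F ∈ BC X c L, ∃ G ∈ T, Equi F G

theorem BDTheorem.of_pos {X : Set (EN N)} {c L : ℝ} (hc : 0 < c) (h : 0 < L → BDTheorem X c L) : BDTheorem X c L := by
  rcases le_or_gt L 0 with hL | hL
  · have h1 : ∀ F, F ∉ BC X c L := fun F hF => by
      have := hF.2.2 0
      linarith [this.1, this.2]
    exact ⟨fun F hF => absurd hF (h1 F), ∅, by simp, fun F hF => absurd hF (h1 F)⟩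
  · exact h hL

/-- **Curves with bounded distortion.** -/
theorem partA [P.IsPrime] {n : ℕ} (hn : 2 ≤ n) {z : Fin n → FunField P} (hP : Homog P) (hz : IsTranscendenceBasis ℂ z)
    {c L : ℝ} (hBD : BDTheorem (coneE P) c L) :
    (∀ f ∈ boundedDistortion (projVar P) c L, DoublyPeriodic f ∧ Degenerate P f) ∧
    ∃ T : Set (ℂ → PN N), T.Finite ∧ T ⊆ boundedDistortion (projVar P) c L ∧
      ∀ f ∈ boundedDistortion (projVar P) c L, ∃ g ∈ T, ∃ a b : ℂ, a ≠ 0 ∧ ∀ z, f z = g (a * z + b) := by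
  obtain ⟨h1, T, hT, h2⟩ := hBD
  constructor
  · rintro f ⟨hfX, F, hF, hFb⟩
    have h3 := doublyPeriodic_of hF (h1 F (mem_BC hP hF hfX hFb))
    exact ⟨h3, degenerate_of hn hP hz hF hfX (fun z => (hFb z).2) h3⟩
  · refine ⟨{f | ∃ G ∈ T, IsLift G f}, finite_of_lifts T, ?_, ?_⟩
    · rintro f ⟨G, hG, hGf⟩
      have h3 := hT G hG
      exact ⟨fun z => (hGf.mem_iff hP z).2 (h3.2.1 z), G, hGf, h3.2.2⟩
    · rintro f ⟨hfX, F, hF, hFb⟩
      obtain ⟨G, hG, hFG⟩ := h2 F (mem_BC hP hF hfX hFb)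
      obtain ⟨g, hg, hgX⟩ := exists_curve hP (hT G hG)
      exact ⟨g, ⟨G, hG, hg⟩, eq_of_equi hF hg hFG⟩

/-- no null Brody curves, in the cone -/
theorem noNullBrody_of (hP : Homog P) {n : PseudoLength (coneE P)}
    (hNN : ∀ f ∈ brodyCurves (projVar P) 1, IsNull n f → ∀ z w, f z = f w) : n.NoNullBrody := by
  intro F hF hFX hF1 hθ z w
  have h0 : ∀ z, (F z).ofLp ≠ 0 := fun z => (hFX z).1
  have hl := isLift_mk hF h0
  have h1 := hNN _ ⟨fun z => (hl.mem_iff hP z).2 (hFX z), F, hl, hF1⟩ ⟨F, hl, hθ⟩ z w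
  rw [Projectivization.mk_eq_mk_iff'] at h1
  obtain ⟨a, ha⟩ := h1
  exact ⟨a, WithLp.ofLp_injective 2 ha.symm⟩

/-- the constants of the change of the scale, and the conclusion in the projective space -/
theorem scale_down (hP : Homog P) {c L : ℝ} (h : ∀ F : ℂ → EN N, Differentiable ℂ F → (∀ z, F z ∈ coneE P) →
      (∃ A : ℝ, ∀ r : ℝ, 0 < r → Real.circleAverage (fun z => Real.log ‖F z‖) 0 r ≤ A * (1 + r ^ 2)) →
      (¬ ∀ z, fs (F z) (deriv F z) = 0) → ∃ a : ℂ, a ≠ 0 ∧ (fun z => F (a * z)) ∈ BC (coneE P) c L) :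
    ∀ f : ℂ → PN N, HolomorphicInto f Set.univ → OrderTwo f → (∀ z, f z ∈ projVar P) →
      (∃ z w, f z ≠ f w) → ∃ a : ℂ, a ≠ 0 ∧ (fun z => f (a * z)) ∈ boundedDistortion (projVar P) c L := by
  intro f hf hfo hfX hfn
  obtain ⟨F₀, A, hF₀, hFf, hA⟩ := hfo
  obtain ⟨A', hA'⟩ := average_toLp hF₀ (fun z => (hFf z).1) hA
  have hl : IsLift (fun z => (WithLp.toLp 2 (F₀ z) : EN N)) f := by
    refine ⟨?_, fun z => hFf z⟩
    exact (LE N).differentiable.comp hF₀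
  obtain ⟨a, ha, hFa⟩ := h _ hl.1 (fun z => (hl.mem_iff hP z).1 (hfX z)) ⟨A', hA'⟩ (fun h0 => by
    obtain ⟨z, w, hzw⟩ := hfn
    apply hzw
    apply prP_injective
    rw [hl.prP, hl.prP]
    exact pr_const hl.1 (fun z => hl.ne_zero z) h0 z w)
  have hl' : IsLift (fun z => (WithLp.toLp 2 (F₀ (a * z)) : EN N)) fun z => f (a * z) := by
    have := hl.comp a 0
    simpa using this
  exact ⟨a, ha, fun z => hfX _, _, hl', hFa.2.2⟩

/-- **The finite set of curves.** -/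
theorem exists_curves [P.IsPrime] {n : ℕ} (hn : 2 ≤ n) {z : Fin n → FunField P} (hP : Homog P) (hz : IsTranscendenceBasis ℂ z)
    {c L : ℝ} (hc : 0 < c) (hBD : BDTheorem (coneE P) c L)
    (hscale : ∀ f : ℂ → PN N, HolomorphicInto f Set.univ → OrderTwo f → (∀ z, f z ∈ projVar P) →
      (∃ z w, f z ≠ f w) → ∃ a : ℂ, a ≠ 0 ∧ (fun z => f (a * z)) ∈ boundedDistortion (projVar P) c L) :
    ∃ T : Set (ℂ → PN N), T.Finite ∧ T ⊆ boundedDistortion (projVar P) c L ∧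
      (∀ f ∈ boundedDistortion (projVar P) c L, ∃ g ∈ T, ∃ a b : ℂ, a ≠ 0 ∧ ∀ z, f z = g (a * z + b)) ∧
      (∀ g ∈ T, HolomorphicInto g Set.univ ∧ (∀ z, g z ∈ projVar P) ∧ (∃ z w, g z ≠ g w) ∧ OrderTwo g ∧
        DoublyPeriodic g ∧ Degenerate P g) ∧
      (∀ f : ℂ → PN N, HolomorphicInto f Set.univ → OrderTwo f → (∀ z, f z ∈ projVar P) → (∃ z w, f z ≠ f w) →
        ∃ g ∈ T, ∃ a b : ℂ, a ≠ 0 ∧ ∀ z, f z = g (a * z + b)) ∧
      (ZariskiClosedIn (projVar P) (⋃ g ∈ T, zariskiClosure g) ∧ (⋃ g ∈ T, zariskiClosure g) ≠ projVar P) := by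
  obtain ⟨hper, T, hT, hTb, hcl⟩ := partA hn hP hz hBD
  have hTX : ∀ g ∈ T, ∀ z, g z ∈ projVar P := fun g hg => (hTb hg).1
  have hTd : ∀ g ∈ T, Degenerate P g := fun g hg => (hper g (hTb hg)).2
  have hall : ∀ f : ℂ → PN N, HolomorphicInto f Set.univ → OrderTwo f → (∀ z, f z ∈ projVar P) → (∃ z w, f z ≠ f w) →
      ∃ g ∈ T, ∃ a b : ℂ, a ≠ 0 ∧ ∀ z, f z = g (a * z + b) := by
    intro f hf hfo hfX hfn
    obtain ⟨a, ha, hfa⟩ := hscale f hf hfo hfX hfn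
    obtain ⟨g, hg, a', b', ha', h⟩ := hcl _ hfa
    refine ⟨g, hg, a' * a⁻¹, b', mul_ne_zero ha' (inv_ne_zero ha), fun z => ?_⟩
    have h1 := h (a⁻¹ * z)
    rw [mul_inv_cancel_left₀ ha] at h1
    rw [h1, mul_assoc]
  refine ⟨T, hT, hTb, hcl, fun g hg => ?_, hall, closed_union_closure (by omega) hP hz hT hTX hTd⟩
  obtain ⟨F, hF, hFb⟩ := (hTb hg).2
  exact ⟨hF.holomorphicInto, hTX g hg, nonconstant_of hF hc fun z => (hFb z).1, orderTwo_of hF fun z => (hFb z).2, hper g (hTb hg)⟩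

/-- **Varieties with pseudo-lengths.** -/
theorem exists_curves_w [P.IsPrime] {d : ℕ} (hd : 2 ≤ d) {z : Fin d → FunField P} (hP : Homog P) (hz : IsTranscendenceBasis ℂ z)
    (hsm : ∀ y : Fin (N + 1) → ℂ, y ≠ 0 → (∀ Q ∈ P, eval y Q = 0) → Module.finrank ℂ (conTan P y) ≤ d + 1)
    (hBD : ∀ c L : ℝ, 0 < c → 0 < L → BDTheorem (coneE P) c L)
    (n : PseudoLength (coneE P)) (hNN : ∀ f ∈ brodyCurves (projVar P) 1, IsNull n f → ∀ z w, f z = f w) :
    ∃ c L : ℝ, 0 < c ∧ 0 < L ∧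
    ∃ T : Set (ℂ → PN N), T.Finite ∧ T ⊆ boundedDistortion (projVar P) c L ∧
      (∀ f ∈ boundedDistortion (projVar P) c L, ∃ g ∈ T, ∃ a b : ℂ, a ≠ 0 ∧ ∀ z, f z = g (a * z + b)) ∧
      (∀ g ∈ T, HolomorphicInto g Set.univ ∧ (∀ z, g z ∈ projVar P) ∧ (∃ z w, g z ≠ g w) ∧ OrderTwo g ∧
        DoublyPeriodic g ∧ Degenerate P g) ∧
      (∀ f : ℂ → PN N, HolomorphicInto f Set.univ → OrderTwo f → (∀ z, f z ∈ projVar P) → (∃ z w, f z ≠ f w) →
        ∃ g ∈ T, ∃ a b : ℂ, a ≠ 0 ∧ ∀ z, f z = g (a * z + b)) ∧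
      (ZariskiClosedIn (projVar P) (⋃ g ∈ T, zariskiClosure g) ∧ (⋃ g ∈ T, zariskiClosure g) ≠ projVar P) := by
  obtain ⟨c, L, hc, hL, h⟩ := exists_scale (isCone_coneE hP) (charts_coneE hP hz hsm) n (noNullBrody_of hP hNN)
  exact ⟨c, L, hc, hL, exists_curves hd hP hz hc (hBD c L hc hL) (scale_down hP h)⟩

end Pool.Agent.AD
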