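import Pool.Agent.H22.WL.Proj
import Pool.Agent.AD.Cone
import Pool.Agent.AD.V.Main

/-!
# AD V KobFs: from estimates for discs in the cone to the Kobayashi property of the projective variety
-/

set_option autoImplicit false

open Topology Filter MvPolynomial Metric

noncomputable section

namespace Pool.Agent.AD

open Pool.Agent.H17 (PN VanishesAt HolomorphicInto ZariskiClosedIn puncturedDisc)
open Pool.Agent.H62.FC (Homog)
open Pool.Agent.H36.BP (EN fs wd analyticAt_ofLp)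
open Pool.Agent.H14.PP (IsCone)
open Pool.Agent.H14.KB (KobayashiHyperbolicModulo)
open Pool.Agent.H17EF (projVar coneE LE mk_mem_projVar)
open Pool.Agent.H22.W (PseudoLength)
open Pool.Agent.H22.WL (dist_line norm_ofLp_le)

variable {N : ℕ} {P : Ideal (MvPolynomial (Fin (N + 1)) ℂ)}

/-- **The Kobayashi property from an estimate in the cone.** -/
theorem kobayashi_of_fs (hP : Homog P) {Q : MvPolynomial (Fin (N + 1)) ℂ} {D : ℕ} (hQ : Q.IsHomogeneous D) {C : ℝ}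
    (h : ∀ F : ℂ → EN N, DifferentiableOn ℂ F (ball 0 1) → (∀ z ∈ ball (0 : ℂ) 1, F z ∈ coneE P) →
      ‖eval ((LE N).symm (F 0)) Q‖ / ‖F 0‖ ^ D * fs (F 0) (deriv F 0) ≤ C) : KobayashiHyperbolicModulo (projVar P) Q D := by
  have hX := isCone_coneE hP
  refine ⟨1, Real.sqrt (N + 1) ^ D * (2 * C) * Real.sqrt (N + 1), fun f F hf hfU hF hFf => ?_⟩
  -- a lift
  obtain ⟨F₁, hF1d, hF1f⟩ := Pool.Agent.H36.BP.lift_disc hf (r := 1 / 2) (by norm_num) (by norm_num)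
  have h0mem : (0 : ℂ) ∈ ball (0 : ℂ) (1 / 2) := mem_ball_self (by norm_num)
  have hhalf : ∀ z ∈ ball (0 : ℂ) 1, 2⁻¹ * z ∈ ball (0 : ℂ) (1 / 2) := by
    intro z hz
    rw [mem_ball_zero_iff] at hz ⊢
    rw [norm_mul, norm_inv, Complex.norm_ofNat]
    linarith
  have hF1X : ∀ z ∈ ball (0 : ℂ) (1 / 2), F₁ z ∈ coneE P := by
    intro z hz
    obtain ⟨h1, h2⟩ := hF1f z hz
    have h3 := hfU z (ball_subset_ball (by norm_num) hz)
    rw [h2] at h3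
    exact (mk_mem_projVar hP h1).1 h3
  have hd1 : DifferentiableOn ℂ (fun z => F₁ (2⁻¹ * z)) (ball 0 1) := by
    intro z hz
    have h1 : DifferentiableAt ℂ F₁ (2⁻¹ * z) := hF1d.differentiableAt (isOpen_ball.mem_nhds (hhalf z hz))
    exact (h1.comp z (differentiableAt_id.const_mul _)).differentiableWithinAt
  have hb := h _ hd1 (fun z hz => hF1X _ (hhalf z hz))
  have hF10 : DifferentiableAt ℂ F₁ 0 := hF1d.differentiableAt (isOpen_ball.mem_nhds h0mem)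
  have hder : deriv (fun z => F₁ (2⁻¹ * z)) 0 = (2⁻¹ : ℂ) • deriv F₁ 0 := by
    have h3 : HasDerivAt (fun ζ : ℂ => 2⁻¹ * ζ) (2⁻¹ : ℂ) 0 := by
      simpa using (hasDerivAt_id (0 : ℂ)).const_mul (2⁻¹ : ℂ)
    have h4 : HasDerivAt F₁ (deriv F₁ 0) (2⁻¹ * 0) := by simpa using hF10.hasDerivAt
    exact (h4.scomp (0 : ℂ) h3).deriv
  simp only [mul_zero] at hb
  rw [hder, Pool.Agent.H36.BP.fs_smul_right, norm_inv, Complex.norm_ofNat] at hb
  have hfs1 : ‖eval ((LE N).symm (F₁ 0)) Q‖ / ‖F₁ 0‖ ^ D * fs (F₁ 0) (deriv F₁ 0) ≤ 2 * C := by linarith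
  -- comparison of the lifts
  have hne1 : F₁ 0 ≠ 0 := hX.ne_zero (hF1X 0 h0mem)
  obtain ⟨j, hj⟩ : ∃ j, (F₁ 0) j ≠ 0 := by
    by_contra hcon
    push Not at hcon
    exact hne1 (by ext i; exact hcon i)
  have hF1a : AnalyticAt ℂ F₁ 0 := hF1d.analyticAt (isOpen_ball.mem_nhds h0mem)
  have hc1 : AnalyticAt ℂ (fun w => F₁ w j) 0 := analyticAt_pi_iff.mp (analyticAt_ofLp hF1a) j
  have hc2 : AnalyticAt ℂ (fun w => F w j) 0 := analyticAt_pi_iff.mp hF j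
  obtain ⟨k, hk⟩ : ∃ k : ℂ → ℂ, k = fun w => F w j / F₁ w j := ⟨_, rfl⟩
  have hka : AnalyticAt ℂ k 0 := by rw [hk]; exact hc2.div hc1 hj
  have hrel : ∀ᶠ w in 𝓝 (0 : ℂ), (WithLp.toLp 2 (F w) : EN N) = k w • F₁ w ∧ k w ≠ 0 := by
    filter_upwards [hFf, isOpen_ball.mem_nhds h0mem, hc1.continuousAt.eventually_ne hj] with w h1 h2 h3
    obtain ⟨h4, h5⟩ := h1
    obtain ⟨h6, h7⟩ := hF1f w h2
    rw [h5, Projectivization.mk_eq_mk_iff'] at h7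
    obtain ⟨a, ha⟩ := h7
    have ha' : ∀ i, a * F₁ w i = F w i := fun i => congrFun ha i
    have hka' : k w = a := by
      rw [hk]
      simp only
      rw [← ha' j]
      field_simp
    refine ⟨?_, ?_⟩
    · rw [hka']
      ext i
      exact (ha' i).symm
    · rw [hka']
      rintro rfl
      apply h4
      funext i
      rw [← ha' i, zero_mul]
      rfl
  have hdF : deriv (fun w => (WithLp.toLp 2 (F w) : EN N)) 0 = k 0 • deriv F₁ 0 + deriv k 0 • F₁ 0 := by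
    have h1 : (fun w => (WithLp.toLp 2 (F w) : EN N)) =ᶠ[𝓝 0] fun w => k w • F₁ w := hrel.mono fun w hw => hw.1
    rw [h1.deriv_eq]
    exact (hka.differentiableAt.hasDerivAt.smul hF10.hasDerivAt).deriv
  have hdF2 : deriv (fun w => (WithLp.toLp 2 (F w) : EN N)) 0 = WithLp.toLp 2 (deriv F 0) := by
    have h1 : HasDerivAt F (deriv F 0) 0 := hF.differentiableAt.hasDerivAt
    exact ((LE N : (Fin (N + 1) → ℂ) →L[ℂ] EN N).hasFDerivAt.comp_hasDerivAt (0 : ℂ) h1).deriv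
  obtain ⟨hk0, hk1⟩ := hrel.self_of_nhds
  have hF0 : (WithLp.toLp 2 (F 0) : EN N) ≠ 0 := by
    rw [hk0]
    exact smul_ne_zero hk1 hne1
  obtain ⟨a, ha⟩ := dist_line (x := (WithLp.toLp 2 (F 0) : EN N)) (v := WithLp.toLp 2 (deriv F 0)) hF0
  have hfs2 : fs (WithLp.toLp 2 (F 0) : EN N) (WithLp.toLp 2 (deriv F 0)) = fs (F₁ 0) (deriv F₁ 0) := by
    rw [← hdF2, hdF, hk0, Pool.Agent.H36.BP.fs_inv hne1 _ hk1]
  refine ⟨a, ?_⟩
  -- the form
  have hQ2 : ‖eval (F 0) Q‖ / ‖(WithLp.toLp 2 (F 0) : EN N)‖ ^ D = ‖eval ((LE N).symm (F₁ 0)) Q‖ / ‖F₁ 0‖ ^ D := by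
    have e1 : F 0 = k 0 • ((LE N).symm (F₁ 0)) := by
      have e2 : (LE N).symm (WithLp.toLp 2 (F 0) : EN N) = F 0 := rfl
      rw [← e2, hk0, map_smul]
    have e3 : eval (F 0) Q = k 0 ^ D * eval ((LE N).symm (F₁ 0)) Q := by
      rw [e1]
      exact Pool.Agent.H17EF.eval_smul_form hQ _ _
    rw [e3, hk0, norm_smul, norm_mul, norm_pow, mul_pow]
    have e4 : ‖k 0‖ ≠ 0 := norm_ne_zero_iff.2 hk1
    have e5 : ‖F₁ 0‖ ≠ 0 := norm_ne_zero_iff.2 hne1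
    field_simp
  have h1 : ‖deriv F 0 - a • F 0‖ ≤ ‖(WithLp.toLp 2 (deriv F 0) : EN N) - a • WithLp.toLp 2 (F 0)‖ :=
    norm_ofLp_le ((WithLp.toLp 2 (deriv F 0) : EN N) - a • WithLp.toLp 2 (F 0))
  have h2 : ‖(WithLp.toLp 2 (F 0) : EN N)‖ ≤ Real.sqrt (N + 1) * ‖F 0‖ := Pool.Agent.H14.V.norm_le_ofLp (WithLp.toLp 2 (F 0) : EN N)
  have hn0 : 0 < ‖(WithLp.toLp 2 (F 0) : EN N)‖ := norm_pos_iff.2 hF0
  have hs0 : 0 < ‖F 0‖ := by
    refine norm_pos_iff.2 fun h0 => hF0 ?_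
    rw [h0]
    rfl
  have h3 : ‖eval (F 0) Q‖ / ‖F 0‖ ^ D ≤ Real.sqrt (N + 1) ^ D * (‖eval (F 0) Q‖ / ‖(WithLp.toLp 2 (F 0) : EN N)‖ ^ D) := by
    rw [← mul_div_assoc, div_le_div_iff₀ (by positivity) (by positivity)]
    have h4 : ‖(WithLp.toLp 2 (F 0) : EN N)‖ ^ D ≤ (Real.sqrt (N + 1) * ‖F 0‖) ^ D := pow_le_pow_left₀ hn0.le h2 D
    rw [mul_pow] at h4
    calc ‖eval (F 0) Q‖ * ‖(WithLp.toLp 2 (F 0) : EN N)‖ ^ D ≤ ‖eval (F 0) Q‖ * (Real.sqrt (N + 1) ^ D * ‖F 0‖ ^ D) :=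
          mul_le_mul_of_nonneg_left h4 (norm_nonneg _)
      _ = Real.sqrt (N + 1) ^ D * ‖eval (F 0) Q‖ * ‖F 0‖ ^ D := by ring
  have hfs0 : 0 ≤ fs (F₁ 0) (deriv F₁ 0) := Pool.Agent.H36.BP.fs_nonneg _ _
  have h4 : (‖eval (F 0) Q‖ / ‖F 0‖ ^ D) * fs (WithLp.toLp 2 (F 0) : EN N) (WithLp.toLp 2 (deriv F 0)) ≤ Real.sqrt (N + 1) ^ D * (2 * C) := by
    rw [hfs2]
    calc (‖eval (F 0) Q‖ / ‖F 0‖ ^ D) * fs (F₁ 0) (deriv F₁ 0)
        ≤ (Real.sqrt (N + 1) ^ D * (‖eval (F 0) Q‖ / ‖(WithLp.toLp 2 (F 0) : EN N)‖ ^ D)) * fs (F₁ 0) (deriv F₁ 0) :=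
          mul_le_mul_of_nonneg_right h3 hfs0
      _ = Real.sqrt (N + 1) ^ D * (‖eval ((LE N).symm (F₁ 0)) Q‖ / ‖F₁ 0‖ ^ D * fs (F₁ 0) (deriv F₁ 0)) := by rw [hQ2]; ring
      _ ≤ Real.sqrt (N + 1) ^ D * (2 * C) := mul_le_mul_of_nonneg_left hfs1 (by positivity)
  have h5 : 0 ≤ Real.sqrt (N + 1) ^ D * (2 * C) := by
    refine le_trans ?_ h4
    have : 0 ≤ fs (WithLp.toLp 2 (F 0) : EN N) (WithLp.toLp 2 (deriv F 0)) := Pool.Agent.H36.BP.fs_nonneg _ _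
    positivity
  rw [pow_one]
  calc ‖eval (F 0) Q‖ / ‖F 0‖ ^ D * ‖deriv F 0 - a • F 0‖
      ≤ ‖eval (F 0) Q‖ / ‖F 0‖ ^ D * ‖(WithLp.toLp 2 (deriv F 0) : EN N) - a • WithLp.toLp 2 (F 0)‖ :=
        mul_le_mul_of_nonneg_left h1 (by positivity)
    _ = (‖eval (F 0) Q‖ / ‖F 0‖ ^ D * fs (WithLp.toLp 2 (F 0) : EN N) (WithLp.toLp 2 (deriv F 0))) * ‖(WithLp.toLp 2 (F 0) : EN N)‖ := by
        rw [ha]
        ring
    _ ≤ (Real.sqrt (N + 1) ^ D * (2 * C)) * (Real.sqrt (N + 1) * ‖F 0‖) := mul_le_mul h4 h2 hn0.le h5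
    _ = Real.sqrt (N + 1) ^ D * (2 * C) * Real.sqrt (N + 1) * ‖F 0‖ := by ring

/-- the zero pseudo-length -/
def zeroLength (X : Set (EN N)) : PseudoLength X where
  toFun _ _ := 0
  nonneg _ _ _ := le_rfl
  add_smul _ _ _ _ := rfl
  smul _ _ _ _ := by simp
  scale _ _ _ _ _ := rfl
  continuous := continuousOn_const
  curved _ _ _ _ _ _ _ _ _ := by simp [Real.circleAverage]

/-- **Brody's theorem**: a projective variety without nonconstant entire curves is Kobayashi hyperbolic. -/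
theorem kobayashi_of_const (hP : Homog P)
    (h : ∀ f : ℂ → PN N, HolomorphicInto f Set.univ → (∀ z, f z ∈ projVar P) → ∀ z w, f z = f w) :
    KobayashiHyperbolicModulo (projVar P) 1 0 := by
  have hX := isCone_coneE hP
  obtain ⟨K, hK, hb⟩ := exists_bound_unit hX (zeroLength (coneE P)) (noNullBrody_of hP (n := zeroLength (coneE P)) fun f hf _ z w => by
    obtain ⟨hfX, F, hF, -⟩ := hf
    exact h f hF.holomorphicInto hfX z w)
  refine kobayashi_of_fs hP (isHomogeneous_one _ _) (C := K) fun F hF hFX => ?_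
  rw [map_one, norm_one, pow_zero, div_one, one_mul]
  exact hb F hF hFX fun z hz => zero_le_one

end Pool.Agent.AD
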