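import Pool.Agent.AD.V.Main

/-!
# AD V Cases: Brody curves and pseudo-lengths in varieties of dimension at least two
-/

set_option autoImplicit false

open Topology Filter MvPolynomial Metric

noncomputable section

namespace Pool.Agent.AD

open Pool.Agent.H17 (PN VanishesAt HolomorphicInto ZariskiClosedIn puncturedDisc)
open Pool.Agent.H62.FC (Homog)
open Pool.Agent.H17LG.Variety (FunField)
open Pool.Agent.H13.SM (conTan)
open Pool.Agent.H36.BP (EN fs wd)
open Pool.Agent.H14.PP (IsCone)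
open Pool.Agent.H17EF (projVar coneE)
open Pool.Agent.H22.W (PseudoLength tan_entire)
open Pool.Agent.H14.V (IsLift boundedDistortion brodyCurves DoublyPeriodic Degenerate IsNull)

variable {N : ℕ} {P : Ideal (MvPolynomial (Fin (N + 1)) ℂ)}

/-- **Brody curves and pseudo-lengths.** -/
theorem brody_or [P.IsPrime] {d : ℕ} (hd : 2 ≤ d) {z : Fin d → FunField P} (hP : Homog P) (hz : IsTranscendenceBasis ℂ z)
    (hsm : ∀ y : Fin (N + 1) → ℂ, y ≠ 0 → (∀ Q ∈ P, eval y Q = 0) → Module.finrank ℂ (conTan P y) ≤ d + 1)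
    (hBD : ∀ c L : ℝ, 0 < c → BDTheorem (coneE P) c L) (n : PseudoLength (coneE P)) {L : ℝ} {f : ℂ → PN N}
    (hf : f ∈ brodyCurves (projVar P) L) : IsNull n f ∨ (DoublyPeriodic f ∧ Degenerate P f) := by
  have hX := isCone_coneE hP
  have hch : Charts d (coneE P) := charts_coneE hP hz hsm
  obtain ⟨hfX, F, hF, hFL⟩ := hf
  have hFX : ∀ z, F z ∈ coneE P := fun z => (hF.mem_iff hP z).1 (hfX z)
  have hconst := const_brody hX hch n hF.1 hFX hFL
  by_cases hb : n.toFun (F 0) (deriv F 0) = 0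
  · exact Or.inl ⟨F, hF, fun z => by rw [hconst z 0, hb]⟩
  · right
    have hb' : 0 < n.toFun (F 0) (deriv F 0) := lt_of_le_of_ne (n.nonneg _ _ (tan_entire hF.1 hFX 0)) (Ne.symm hb)
    obtain ⟨c, hc, hlow⟩ := exists_lower hX hch n hb'
    exact (partA hd hP hz (hBD c L hc)).1 f ⟨hfX, F, hF, fun z => ⟨hlow F hF.1 hFX (fun z => hconst z 0) z, hFL z⟩⟩

end Pool.Agent.AD
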