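import Pool.Agent.AD.V.Count
import Pool.Agent.H17EF.Alg

/-!
# AD V Alg: doubly periodic entire curves of order two in a variety of dimension at least two are algebraically degenerate

Port of `H17EF/Alg.lean`.
-/

set_option autoImplicit false

open MvPolynomial

noncomputable section

namespace Pool.Agent.AD

open Metric Filter Topology
open Pool.Agent.H36.BP (OrdTwo)
open Pool.Agent.H17LG.Variety (FunField)
open Pool.Agent.H62.FC (Homog)
open Pool.Agent.H17EF (IsPeriod analyticAt_eval exists_bound main_estimate)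

variable {N : ℕ}

/-- **Doubly periodic curves of order two on a variety of dimension at least two are algebraically degenerate.** -/
theorem exists_form_of_periodic {P : Ideal (MvPolynomial (Fin (N + 1)) ℂ)} [P.IsPrime] {n : ℕ} (hn : 2 ≤ n) {z : Fin n → FunField P}
    (hz : IsTranscendenceBasis ℂ z) {F : ℂ → Fin (N + 1) → ℂ} (hF : Differentiable ℂ F) (h0 : ∀ z, F z ≠ 0) (hord : OrdTwo F)
    (hFP : ∀ z, ∀ Q ∈ P, eval (F z) Q = 0) {w₁ w₂ : ℂ} (hw : LinearIndependent ℝ ![w₁, w₂]) (h1 : IsPeriod F w₁)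
    (h2 : IsPeriod F w₂) :
    ∃ (Q : MvPolynomial (Fin (N + 1)) ℂ) (d : ℕ), Q.IsHomogeneous d ∧ Q ∉ P ∧ ∀ z, eval (F z) Q = 0 := by
  classical
  obtain ⟨C₀, hord⟩ := hord
  have hX : ∃ i, (X i : MvPolynomial (Fin (N + 1)) ℂ) ∉ P := by
    by_contra hcon
    push Not at hcon
    apply h0 0
    funext i
    have := hFP 0 _ (hcon i)
    simpa using this
  set M : ℝ := ‖w₁‖ + ‖w₂‖ with hM
  have hM0 : 0 ≤ M := by positivity
  obtain ⟨K, hK⟩ := exists_nat_ge (4 * |C₀| * M ^ 2 + 1)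
  obtain ⟨d, hd, hL⟩ := exists_form_of_conditions hn hz hX K
  -- the linear conditions
  let L : MvPolynomial (Fin (N + 1)) ℂ →ₗ[ℂ] (Fin (K * d) → ℂ) :=
    { toFun := fun Q k => iteratedDeriv k (fun z => eval (F z) Q) 0
      map_add' := by
        intro Q R
        funext k
        have e1 : (fun z => eval (F z) (Q + R)) = (fun z => eval (F z) Q) + fun z => eval (F z) R := by
          funext z; simp
        rw [e1, iteratedDeriv_add (analyticAt_eval (hF.analyticAt 0) Q).contDiffAt (analyticAt_eval (hF.analyticAt 0) R).contDiffAt]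
        rfl
      map_smul' := by
        intro c Q
        funext k
        have e1 : (fun z => eval (F z) (c • Q)) = c • fun z => eval (F z) Q := by
          funext z; simp [MvPolynomial.smul_eval]
        rw [e1, iteratedDeriv_const_smul (analyticAt_eval (hF.analyticAt 0) Q).contDiffAt]
        rfl }
  obtain ⟨Q, hQ, hQP, hLQ⟩ := hL L
  refine ⟨Q, d, hQ, hQP, ?_⟩
  have hμ : ((K * d : ℕ) : ℕ∞) ≤ analyticOrderAt (fun z => eval (F z) Q) 0 := by
    rw [natCast_le_analyticOrderAt_iff_iteratedDeriv_eq_zero (analyticAt_eval (hF.analyticAt 0) Q)]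
    intro k hk
    exact congrFun hLQ ⟨k, hk⟩
  by_contra hcon
  -- the order at `0` is finite
  have hne : analyticOrderAt (fun z => eval (F z) Q) 0 ≠ ⊤ := by
    intro htop
    apply hcon
    rw [analyticOrderAt_eq_top] at htop
    have h3 : AnalyticOnNhd ℂ (fun z => eval (F z) Q) Set.univ := fun z _ => analyticAt_eval (hF.analyticAt z) Q
    intro z
    exact h3.eqOn_zero_of_preconnected_of_eventuallyEq_zero isPreconnected_univ (Set.mem_univ 0) htop (Set.mem_univ z)
  obtain ⟨m, hm⟩ := ENat.ne_top_iff_exists.1 hne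
  obtain ⟨φ, hφ, hφ0, hφ1⟩ := ((analyticAt_eval (hF.analyticAt 0) Q).analyticOrderAt_eq_natCast).1 hm.symm
  obtain ⟨B, hB0, hB⟩ := exists_bound Q
  have hφ1' : ∀ᶠ z in 𝓝 (0 : ℂ), eval (F z) Q = z ^ m * φ z := by
    filter_upwards [hφ1] with z hz
    rw [hz]
    simp
  have hφpos : 0 < ‖φ 0‖ := norm_pos_iff.2 hφ0
  have hF0pos : 0 < ‖F 0‖ := norm_pos_iff.2 (h0 0)
  -- the lattice points
  let pt : ℤ × ℤ → ℂ := fun ab => (ab.1 : ℂ) * w₁ + (ab.2 : ℂ) * w₂
  have hinj : Function.Injective pt := by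
    intro a b hab
    have h3 : ((a.1 - b.1 : ℤ) : ℝ) • w₁ + ((a.2 - b.2 : ℤ) : ℝ) • w₂ = 0 := by
      simp only [Complex.real_smul]
      simp only [pt] at hab
      push_cast
      linear_combination hab
    have h4 := LinearIndependent.pair_iff.1 hw _ _ h3
    have h5 : a.1 - b.1 = 0 := by exact_mod_cast h4.1
    have h6 : a.2 - b.2 = 0 := by exact_mod_cast h4.2
    ext
    · omega
    · omega
  have est : ∀ T : ℕ, 1 ≤ T → 4 / 3 ≤ 4 * M * T →
      Real.exp (-(C₀ * (1 + (4 * M * T) ^ 2))) ^ d * ‖φ 0‖ ≤ ‖F 0‖ ^ d * (B * (1 / 3) ^ (K * d * (4 * T ^ 2))) := by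
    intro T hT hr
    set S₀ : Finset (ℤ × ℤ) := (Finset.Icc (-(T : ℤ)) T) ×ˢ (Finset.Icc (-(T : ℤ)) T) with hS₀
    set S : Finset ℂ := (S₀.erase (0, 0)).image pt with hS
    have hcard : S.card = (2 * T + 1) ^ 2 - 1 := by
      rw [hS, Finset.card_image_of_injective _ hinj, Finset.card_erase_of_mem, hS₀, Finset.card_product, Int.card_Icc]
      · congr 1
        have : ((T : ℤ) + 1 - -(T : ℤ)).toNat = 2 * T + 1 := by omega
        rw [this]
        ring
      · rw [hS₀, Finset.mem_product, Finset.mem_Icc]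
        constructor <;> constructor <;> simp
    have hcard' : 4 * T ^ 2 ≤ S.card := by
      rw [hcard]
      have : (2 * T + 1) ^ 2 = 4 * T ^ 2 + 4 * T + 1 := by ring
      omega
    have h3 := main_estimate hF h0 hord hQ hμ hφ hφ1' hB0 hB S ?_ ?_ hr ?_
    · refine h3.trans ?_
      have h4 : ((1 : ℝ) / 3) ^ (K * d * S.card) ≤ (1 / 3) ^ (K * d * (4 * T ^ 2)) :=
        pow_le_pow_of_le_one (by norm_num) (by norm_num) (Nat.mul_le_mul_left _ hcard')
      exact mul_le_mul_of_nonneg_left (mul_le_mul_of_nonneg_left h4 hB0.le) (by positivity)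
    · intro h4
      rw [hS, Finset.mem_image] at h4
      obtain ⟨ab, hab, h5⟩ := h4
      have h6 : pt (0, 0) = 0 := by simp [pt]
      rw [← h6] at h5
      have h7 := hinj h5
      subst h7
      simp at hab
    · intro w hwS
      rw [hS, Finset.mem_image] at hwS
      obtain ⟨ab, -, rfl⟩ := hwS
      exact (h1.zsmul ab.1).add (h2.zsmul ab.2)
    · intro w hwS
      rw [hS, Finset.mem_image] at hwS
      obtain ⟨ab, hab, rfl⟩ := hwS
      have hab' := Finset.mem_of_mem_erase hab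
      rw [hS₀, Finset.mem_product, Finset.mem_Icc, Finset.mem_Icc] at hab'
      have ha : |(ab.1 : ℝ)| ≤ T := by
        rw [abs_le]
        constructor
        · exact_mod_cast hab'.1.1
        · exact_mod_cast hab'.1.2
      have hb : |(ab.2 : ℝ)| ≤ T := by
        rw [abs_le]
        constructor
        · exact_mod_cast hab'.2.1
        · exact_mod_cast hab'.2.2
      have e1 : ‖((ab.1 : ℤ) : ℂ)‖ = |(ab.1 : ℝ)| := by
        rw [Complex.norm_intCast]
      have e2 : ‖((ab.2 : ℤ) : ℂ)‖ = |(ab.2 : ℝ)| := by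
        rw [Complex.norm_intCast]
      calc ‖pt ab‖ ≤ ‖((ab.1 : ℤ) : ℂ) * w₁‖ + ‖((ab.2 : ℤ) : ℂ) * w₂‖ := norm_add_le _ _
        _ = |(ab.1 : ℝ)| * ‖w₁‖ + |(ab.2 : ℝ)| * ‖w₂‖ := by rw [norm_mul, norm_mul, e1, e2]
        _ ≤ T * ‖w₁‖ + T * ‖w₂‖ := by gcongr
        _ = 4 * M * T / 4 := by rw [hM]; ring
  have hMpos : 0 < M := by
    have h3 : w₁ ≠ 0 := hw.ne_zero 0
    have : 0 < ‖w₁‖ := norm_pos_iff.2 h3
    positivity
  -- contradiction for large `T`
  set E : ℝ := d * Real.log ‖F 0‖ + Real.log B - Real.log ‖φ 0‖ with hE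
  obtain ⟨T, hT⟩ := exists_nat_ge (max (1 / M) (|C₀| * d + |E| + 2))
  have hT1 : 1 / M ≤ T := (le_max_left _ _).trans hT
  have hT2 : |C₀| * d + |E| + 2 ≤ T := (le_max_right _ _).trans hT
  have hTpos : (1 : ℝ) ≤ T := by
    have : 0 ≤ |C₀| * d + |E| := by positivity
    linarith
  have hTn : 1 ≤ T := by exact_mod_cast hTpos
  have hMT : 4 / 3 ≤ 4 * M * T := by
    rw [div_le_iff₀ hMpos] at hT1
    nlinarith
  have h3 := est T hTn hMT
  have h4 : (1 / 3 : ℝ) ≤ Real.exp (-1) := by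
    rw [Real.exp_neg, one_div]
    apply inv_anti₀ (Real.exp_pos _)
    have := Real.exp_one_lt_d9
    linarith
  have h5 : Real.exp (-(C₀ * (1 + (4 * M * T) ^ 2))) ^ d * ‖φ 0‖ ≤ ‖F 0‖ ^ d * (B * Real.exp (-1) ^ (K * d * (4 * T ^ 2))) := by
    refine h3.trans ?_
    gcongr
  have h6 : Real.exp (d * -(C₀ * (1 + (4 * M * T) ^ 2)) + Real.log ‖φ 0‖) ≤
      Real.exp (d * Real.log ‖F 0‖ + (Real.log B + ((K * d * (4 * T ^ 2) : ℕ) : ℝ) * (-1))) := by
    rw [Real.exp_add, Real.exp_add, Real.exp_add, Real.exp_nat_mul, Real.exp_nat_mul, Real.exp_nat_mul, Real.exp_log hφpos,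
      Real.exp_log hF0pos, Real.exp_log hB0]
    exact h5
  rw [Real.exp_le_exp] at h6
  push_cast at h6
  have hd1 : (1 : ℝ) ≤ d := by exact_mod_cast hd
  have h7 : C₀ * (1 + (4 * M * T) ^ 2) ≤ |C₀| * (1 + (4 * M * T) ^ 2) :=
    mul_le_mul_of_nonneg_right (le_abs_self _) (by positivity)
  have h8 : (4 * |C₀| * M ^ 2 + 1) * (d * (4 * T ^ 2)) ≤ K * (d * (4 * T ^ 2)) :=
    mul_le_mul_of_nonneg_right hK (by positivity)
  have h9 : (d : ℝ) * (C₀ * (1 + (4 * M * T) ^ 2)) ≤ d * (|C₀| * (1 + (4 * M * T) ^ 2)) :=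
    mul_le_mul_of_nonneg_left h7 (by positivity)
  have h10 : E ≤ |E| := le_abs_self _
  have h11 : (d : ℝ) * (4 * T ^ 2) ≤ |C₀| * d + |E| := by
    rw [hE] at h10 ⊢
    nlinarith
  have h12 : (T : ℝ) ≤ d * (4 * T ^ 2) := by
    have : (T : ℝ) * 1 ≤ T * T := mul_le_mul_of_nonneg_left hTpos (by linarith)
    nlinarith
  linarith

end Pool.Agent.AD
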